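import Mathlib
import Pool.Agent.X21.Li.O2

/-!
# Characters which are the only common constituent of two monomial characters
-/

set_option autoImplicit false
set_option linter.unusedSectionVars false

namespace Pool.Agent.X21.Yg

open Pool.Agent.H302R2 Pool.Agent.H541R3.ART Pool.Agent.X21.Sy Pool.Agent.X21.Qd Pool.Agent.X21.Ce

variable {G : Type} [Group G]

/-- `m χ` is the multiplicity of the linear character `ψ` of `H` in `χ`, that is, the multiplicity
of `χ` in the monomial character induced from `ψ` -/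
def Mult (H : Subgroup G) (ψ : H →* ℂˣ) (m : (G → ℂ) → ℕ) : Prop :=
  ∀ χ ∈ Irr G, ∑ᶠ h : H, χ h * (((ψ h)⁻¹ : ℂˣ) : ℂ) = (m χ : ℂ) * (Nat.card H : ℂ)

/-- `χ` is the only common constituent of two monomial characters of `G`. -/
def Sep (χ : G → ℂ) : Prop :=
  ∃ (H K : Subgroup G) (φ : H →* ℂˣ) (ψ : K →* ℂˣ) (a b : (G → ℂ) → ℕ),
    Mult H φ a ∧ Mult K ψ b ∧ a χ ≠ 0 ∧ b χ ≠ 0 ∧ ∀ χ' ∈ Irr G, χ' ≠ χ → a χ' = 0 ∨ b χ' = 0

variable [Finite G]

lemma exists_Mult (H : Subgroup G) (ψ : H →* ℂˣ) : ∃ m, Mult H ψ m := by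
  classical
  have h1 : ∀ χ : G → ℂ, ∃ m : ℕ, χ ∈ Irr G →
      ∑ᶠ h : H, χ h * (((ψ h)⁻¹ : ℂˣ) : ℂ) = (m : ℂ) * (Nat.card H : ℂ) := by
    intro χ
    by_cases hχ : χ ∈ Irr G
    · obtain ⟨m, hm⟩ := exists_mult hχ H ψ
      exact ⟨m, fun _ => hm⟩
    · exact ⟨0, fun h => absurd h hχ⟩
  choose m hm using h1
  exact ⟨m, hm⟩

section orders

variable {s₀ : ℂ} (A : ArtinData G s₀)

lemma sum_nonneg {H : Subgroup G} {ψ : H →* ℂˣ} {m : (G → ℂ) → ℕ} (hm : Mult H ψ m) :
    0 ≤ ∑ χ ∈ irrF G, (m χ : ℤ) * A.ord χ := by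
  have h1 := A.order_Lin H ψ m hm
  have h2 := A.hecke H ψ
  rw [h1] at h2
  exact_mod_cast h2

lemma exists_zero {H : Subgroup G} {ψ : H →* ℂˣ} {m : (G → ℂ) → ℕ} (hm : Mult H ψ m)
    {χ : G → ℂ} (hχ : χ ∈ Irr G) (h0 : m χ ≠ 0) (hneg : A.ord χ < 0) :
    ∃ χ' ∈ Irr G, m χ' ≠ 0 ∧ 0 < A.ord χ' := by
  classical
  by_contra hcon
  push Not at hcon
  have h1 := sum_nonneg A hm
  have h2 : ∑ χ' ∈ irrF G, (m χ' : ℤ) * A.ord χ' < 0 := by
    refine Finset.sum_neg' ?_ ⟨χ, mem_irrF.mpr hχ, ?_⟩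
    · intro χ' hχ'
      by_cases h : m χ' = 0
      · rw [h]; simp
      · exact mul_nonpos_of_nonneg_of_nonpos (by positivity) (hcon χ' (mem_irrF.mp hχ') h)
    · exact mul_neg_of_pos_of_neg (by positivity) hneg
  omega

/-- a pole of `L χ` forces two other functions to vanish -/
theorem two_zeros {χ : G → ℂ} (hχ : χ ∈ Irr G) (hs : Sep χ) (hneg : A.ord χ < 0) :
    ∃ χ₁ ∈ Irr G, ∃ χ₂ ∈ Irr G, χ₁ ≠ χ₂ ∧ 0 < A.ord χ₁ ∧ 0 < A.ord χ₂ := by
  obtain ⟨H, K, φ, ψ, a, b, ha, hb, ha0, hb0, hab⟩ := hs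
  obtain ⟨χ₁, h1, h2, h3⟩ := exists_zero A ha hχ ha0 hneg
  obtain ⟨χ₂, h4, h5, h6⟩ := exists_zero A hb hχ hb0 hneg
  refine ⟨χ₁, h1, χ₂, h4, ?_, h3, h6⟩
  rintro rfl
  by_cases h : χ₁ = χ
  · rw [h] at h3; omega
  · rcases hab χ₁ h1 h with h7 | h7
    · exact h2 h7
    · exact h5 h7

end orders

/-- column orthogonality -/
lemma col_orth2 [Fintype G] [DecidableEq G] (h k : G) :
    ((Finset.univ.filter fun g : G => g * k * g⁻¹ = h).card : ℂ)
      = ∑ χ ∈ irrF G, χ k * χ h⁻¹ := by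
  set f : G → ℂ := fun x => ((Finset.univ.filter fun g : G => g * x * g⁻¹ = h).card : ℂ) with hf
  have hcl : ∀ g y : G, f (y * g * y⁻¹) = f g := by
    intro g y
    simp only [hf]
    congr 1
    refine Finset.card_bij' (fun z _ => z * y) (fun z _ => z * y⁻¹) ?_ ?_ ?_ ?_
    · intro z hz
      rw [Finset.mem_filter] at hz ⊢
      refine ⟨Finset.mem_univ _, ?_⟩
      rw [← hz.2]; group
    · intro z hz
      rw [Finset.mem_filter] at hz ⊢
      refine ⟨Finset.mem_univ _, ?_⟩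
      rw [← hz.2]; group
    · intro z _; group
    · intro z _; group
  have h1 := expand' f hcl k
  have h2 : ∀ χ ∈ irrF G, (Nat.card G : ℂ)⁻¹ * ∑ g : G, f g * χ g⁻¹ = χ h⁻¹ := by
    intro χ hχ
    have hχ' := mem_irrF.mp hχ
    have h3 : ∀ x : G, f x * χ x⁻¹ = ∑ g : G, if g * x * g⁻¹ = h then χ x⁻¹ else 0 := by
      intro x
      rw [← Finset.sum_filter, Finset.sum_const, nsmul_eq_mul]
    rw [Finset.sum_congr rfl fun x _ => h3 x, Finset.sum_comm]
    have h4 : ∀ g : G, (∑ x : G, if g * x * g⁻¹ = h then χ x⁻¹ else 0) = χ h⁻¹ := by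
      intro g
      rw [Finset.sum_eq_single (g⁻¹ * h * g)]
      · rw [if_pos (by group)]
        have := Irr.conj hχ' h⁻¹ g⁻¹
        rw [← this]
        congr 1
        group
      · intro x _ hx
        rw [if_neg]
        intro h5
        apply hx
        rw [← h5]; group
      · intro hx; exact absurd (Finset.mem_univ _) hx
    rw [Finset.sum_congr rfl fun g _ => h4 g, Finset.sum_const, Finset.card_univ, nsmul_eq_mul,
      ← Nat.card_eq_fintype_card, ← mul_assoc, inv_mul_cancel₀ cG, one_mul]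
  have h6 : f k = ((Finset.univ.filter fun g : G => g * k * g⁻¹ = h).card : ℂ) := rfl
  rw [← h6, h1]
  exact Finset.sum_congr rfl fun χ hχ => by rw [h2 χ hχ]; ring

/-- the scalar product of two monomial characters, the first one a permutation character -/
lemma inner_formula [Fintype G] [DecidableEq G] (H K : Subgroup G) (ψ : K →* ℂˣ)
    (s : G → ℂ) (hs : ∀ k : K, s k = ψ k) {a b : (G → ℂ) → ℕ} (ha : Mult H 1 a)
    (hb : Mult K ψ b) [DecidablePred (· ∈ H)] [DecidablePred (· ∈ K)] :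
    (∑ χ ∈ irrF G, (a χ : ℂ) * b χ) * Nat.card H * Nat.card K
      = ∑ g : G, ∑ k : G, if k ∈ K ∧ g⁻¹ * k * g ∈ H then s k else 0 := by
  have hA : ∀ χ ∈ irrF G, (a χ : ℂ) * Nat.card H = ∑ h : G, if h ∈ H then χ h else 0 := by
    intro χ hχ
    rw [← ha χ (mem_irrF.mp hχ), finsum_eq_sum_of_fintype, ← Finset.sum_filter]
    symm
    refine Finset.sum_bij' (fun h hh => ⟨h, (Finset.mem_filter.mp hh).2⟩) (fun h _ => (h : G))
      ?_ ?_ ?_ ?_ ?_
    · intro h _; exact Finset.mem_univ _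
    · intro h _; exact Finset.mem_filter.mpr ⟨Finset.mem_univ _, h.2⟩
    · intro h _; rfl
    · intro h _; rfl
    · intro h _; simp
  have hB : ∀ χ ∈ irrF G, (b χ : ℂ) * Nat.card K = ∑ k : G, if k ∈ K then χ k⁻¹ * s k else 0 := by
    intro χ hχ
    rw [← hb χ (mem_irrF.mp hχ), finsum_eq_sum_of_fintype, ← Finset.sum_filter]
    symm
    refine Finset.sum_bij' (fun h hh => ⟨h, (Finset.mem_filter.mp hh).2⟩⁻¹)
      (fun h _ => ((h⁻¹ : K) : G)) ?_ ?_ ?_ ?_ ?_
    · intro h _; exact Finset.mem_univ _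
    · intro h _; exact Finset.mem_filter.mpr ⟨Finset.mem_univ _, (h⁻¹).2⟩
    · intro h hh
      simp
    · intro h _
      apply Subtype.ext
      simp
    · intro h hh
      have hh' := (Finset.mem_filter.mp hh).2
      have := hs ⟨h, hh'⟩
      simp only [map_inv, inv_inv] at this ⊢
      rw [this]
      rfl
  calc (∑ χ ∈ irrF G, (a χ : ℂ) * b χ) * Nat.card H * Nat.card K
      = ∑ χ ∈ irrF G, ((a χ : ℂ) * Nat.card H) * ((b χ : ℂ) * Nat.card K) := by
        rw [mul_assoc, Finset.sum_mul]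
        exact Finset.sum_congr rfl fun χ _ => by ring
    _ = ∑ χ ∈ irrF G, ∑ k : G, ∑ h : G,
          if k ∈ K ∧ h ∈ H then χ h * χ k⁻¹ * s k else 0 := by
        refine Finset.sum_congr rfl fun χ hχ => ?_
        rw [hA χ hχ, hB χ hχ, mul_comm, Finset.sum_mul]
        refine Finset.sum_congr rfl fun k _ => ?_
        rw [Finset.mul_sum]
        refine Finset.sum_congr rfl fun h _ => ?_
        by_cases h1 : k ∈ K <;> by_cases h2 : h ∈ H <;> simp [h1, h2]
        ring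
    _ = ∑ k : G, ∑ h : G, if k ∈ K ∧ h ∈ H then
          ((Finset.univ.filter fun g : G => g * h * g⁻¹ = k).card : ℂ) * s k else 0 := by
        rw [Finset.sum_comm]
        refine Finset.sum_congr rfl fun k _ => ?_
        rw [Finset.sum_comm]
        refine Finset.sum_congr rfl fun h _ => ?_
        by_cases h1 : k ∈ K ∧ h ∈ H
        · simp only [h1, and_self, if_true]
          rw [col_orth2 k h, Finset.sum_mul]
        · simp only [h1, if_false, Finset.sum_const_zero]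
    _ = ∑ k : G, ∑ h : G, ∑ g : G, if (k ∈ K ∧ h ∈ H) ∧ g * h * g⁻¹ = k then s k else 0 := by
        refine Finset.sum_congr rfl fun k _ => Finset.sum_congr rfl fun h _ => ?_
        by_cases h1 : k ∈ K ∧ h ∈ H
        · simp only [h1, and_self, if_true, true_and]
          rw [← Finset.sum_filter, Finset.sum_const, nsmul_eq_mul]
        · simp only [h1, if_false, false_and, Finset.sum_const_zero]
    _ = ∑ g : G, ∑ k : G, ∑ h : G, if (k ∈ K ∧ h ∈ H) ∧ g * h * g⁻¹ = k then s k else 0 := by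
        rw [Finset.sum_congr rfl fun k _ => Finset.sum_comm, Finset.sum_comm]
    _ = _ := by
        refine Finset.sum_congr rfl fun g _ => Finset.sum_congr rfl fun k _ => ?_
        rw [Finset.sum_eq_single (g⁻¹ * k * g)]
        · by_cases h1 : k ∈ K ∧ g⁻¹ * k * g ∈ H
          · rw [if_pos h1, if_pos ⟨h1, by group⟩]
          · rw [if_neg h1, if_neg (fun h => h1 h.1)]
        · intro h _ hne
          rw [if_neg]
          rintro ⟨-, h2⟩
          apply hne
          rw [← h2]; group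
        · intro h; exact absurd (Finset.mem_univ _) h

end Pool.Agent.X21.Yg
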