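import Mathlib

/-!
# Young subgroups and dominance
-/

set_option autoImplicit false
set_option linter.unusedSectionVars false

namespace Pool.Agent.X21.Yg

open Finset Equiv

/-- the Young subgroup of the permutations which preserve the fibres of `f` -/
def Young {n : ℕ} (f : Fin n → ℕ) : Subgroup (Perm (Fin n)) where
  carrier := {σ | ∀ x, f (σ x) = f x}
  mul_mem' {a b} ha hb x := by
    rw [Perm.mul_apply, ha, hb]
  one_mem' x := rfl
  inv_mem' {a} ha x := by
    have := ha (a⁻¹ x)
    rw [show a (a⁻¹ x) = x from a.apply_symm_apply x] at this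
    exact this.symm

lemma mem_Young {n : ℕ} {f : Fin n → ℕ} {σ : Perm (Fin n)} :
    σ ∈ Young f ↔ ∀ x, f (σ x) = f x := Iff.rfl

/-- number of cells in the first `k` rows -/
def rows (μ : YoungDiagram) (k : ℕ) : ℕ := (μ.cells.filter fun c => c.1 < k).card

lemma rows_eq (μ : YoungDiagram) (k : ℕ) :
    rows μ k = ∑ j ∈ range (μ.rowLen 0), min k (μ.colLen j) := by
  classical
  rw [rows, Finset.card_eq_sum_card_fiberwise (f := Prod.snd) (t := range (μ.rowLen 0))]
  · refine Finset.sum_congr rfl fun j _ => ?_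
    have h : (μ.cells.filter fun c => c.1 < k).filter (fun c => c.2 = j)
        = (range (min k (μ.colLen j))).image (fun i => (i, j)) := by
      ext ⟨a, b⟩
      simp only [mem_filter, mem_image, mem_range, Prod.mk.injEq, YoungDiagram.mem_cells,
        lt_min_iff]
      constructor
      · rintro ⟨⟨h1, h2⟩, rfl⟩
        exact ⟨a, ⟨h2, YoungDiagram.mem_iff_lt_colLen.mp h1⟩, rfl, rfl⟩
      · rintro ⟨i, ⟨h1, h2⟩, rfl, rfl⟩
        exact ⟨⟨YoungDiagram.mem_iff_lt_colLen.mpr h2, h1⟩, rfl⟩
    rw [h, Finset.card_image_of_injective _ (fun a b h => (Prod.mk.inj h).1), card_range]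
  · intro c hc
    rw [Finset.mem_coe, mem_filter, YoungDiagram.mem_cells] at hc
    rw [Finset.mem_coe, mem_range, ← YoungDiagram.mem_iff_lt_rowLen]
    exact μ.up_left_mem (Nat.zero_le _) le_rfl hc.1

lemma eq_of_rows {μ ν : YoungDiagram} (h : ∀ k, rows μ k = rows ν k) : μ = ν := by
  classical
  have key : ∀ (μ : YoungDiagram) (k : ℕ), rows μ (k + 1) = rows μ k + μ.rowLen k := by
    intro μ k
    rw [YoungDiagram.rowLen_eq_card, rows, rows, ← Finset.card_union_of_disjoint]
    · congr 1
      ext c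
      simp only [mem_filter, mem_union, YoungDiagram.mem_cells, YoungDiagram.mem_row_iff]
      constructor
      · rintro ⟨h1, h2⟩
        rcases Nat.lt_succ_iff_lt_or_eq.mp h2 with h3 | h3
        · left; exact ⟨h1, h3⟩
        · right; exact ⟨h1, h3⟩
      · rintro (⟨h1, h2⟩ | ⟨h1, h2⟩)
        · exact ⟨h1, by omega⟩
        · exact ⟨h1, by omega⟩
    · rw [Finset.disjoint_left]
      intro c hc hc'
      rw [mem_filter] at hc
      rw [YoungDiagram.mem_row_iff] at hc'
      omega
  have h2 : ∀ k, μ.rowLen k = ν.rowLen k := by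
    intro k
    have h3 := key μ k
    have h4 := key ν k
    rw [h (k + 1), h k] at h3
    omega
  ext ⟨i, j⟩
  rw [YoungDiagram.mem_cells, YoungDiagram.mem_cells, YoungDiagram.mem_iff_lt_rowLen,
    YoungDiagram.mem_iff_lt_rowLen, h2]

section

variable {n : ℕ} {μ ν : YoungDiagram}

/-- the row of `x` -/
def rw_ (T : Fin n ≃ μ.cells) (x : Fin n) : ℕ := (T x).1.1

/-- the column of `x` -/
def cl_ (T : Fin n ≃ μ.cells) (x : Fin n) : ℕ := (T x).1.2

lemma count_rows (T : Fin n ≃ μ.cells) (g : Perm (Fin n)) (k : ℕ) :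
    rows μ k = (univ.filter fun x => rw_ T (g x) < k).card := by
  rw [rows]
  symm
  refine Finset.card_bij' (fun x _ => (T (g x)).1)
    (fun c hc => g.symm (T.symm ⟨c, (mem_filter.mp hc).1⟩)) ?_ ?_ ?_ ?_
  · intro x hx
    exact mem_filter.mpr ⟨(T (g x)).2, (mem_filter.mp hx).2⟩
  · intro c hc
    refine mem_filter.mpr ⟨mem_univ _, ?_⟩
    rw [rw_, Equiv.apply_symm_apply, Equiv.apply_symm_apply]
    exact (mem_filter.mp hc).2
  · intro x hx
    simp
  · intro c hc
    simp

lemma count_col (T : Fin n ≃ ν.cells) (j : ℕ) :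
    (univ.filter fun x => cl_ T x = j).card = ν.colLen j := by
  rw [YoungDiagram.colLen_eq_card]
  refine Finset.card_bij' (fun x _ => (T x).1)
    (fun c hc => T.symm ⟨c, (YoungDiagram.mem_col_iff.mp hc).1⟩) ?_ ?_ ?_ ?_
  · intro x hx
    exact YoungDiagram.mem_col_iff.mpr ⟨(T x).2, (mem_filter.mp hx).2⟩
  · intro c hc
    refine mem_filter.mpr ⟨mem_univ _, ?_⟩
    rw [cl_, Equiv.apply_symm_apply]
    exact (YoungDiagram.mem_col_iff.mp hc).2
  · intro x hx
    simp
  · intro c hc
    simp

lemma fiber_le (T' : Fin n ≃ ν.cells) (ρ : Fin n → ℕ)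
    (h : Function.Injective fun x => (ρ x, cl_ T' x)) (k j : ℕ) :
    ((univ.filter fun x => ρ x < k).filter fun x => cl_ T' x = j).card
      ≤ min k (ν.colLen j) := by
  rw [le_min_iff]
  constructor
  · refine le_of_le_of_eq (Finset.card_le_card_of_injOn (t := range k) ρ ?_ ?_) (card_range k)
    · intro x hx
      rw [Finset.mem_coe, mem_filter, mem_filter] at hx
      exact Finset.mem_coe.mpr (mem_range.mpr hx.1.2)
    · intro x hx y hy hxy
      rw [Finset.mem_coe, mem_filter, mem_filter] at hx hy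
      exact h (Prod.ext hxy (hx.2.trans hy.2.symm))
  · rw [← count_col T' j]
    refine Finset.card_le_card ?_
    intro x hx
    rw [mem_filter] at hx
    exact mem_filter.mpr ⟨mem_univ _, hx.2⟩

lemma cl_lt (T' : Fin n ≃ ν.cells) (x : Fin n) : cl_ T' x < ν.rowLen 0 := by
  rw [← YoungDiagram.mem_iff_lt_rowLen]
  exact ν.up_left_mem (Nat.zero_le _) le_rfl (T' x).2

lemma split_rows (T : Fin n ≃ μ.cells) (T' : Fin n ≃ ν.cells) (g : Perm (Fin n)) (k : ℕ) :
    rows μ k = ∑ j ∈ range (ν.rowLen 0),
      ((univ.filter fun x => rw_ T (g x) < k).filter fun x => cl_ T' x = j).card := by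
  rw [count_rows T g k, Finset.card_eq_sum_card_fiberwise (f := cl_ T')
    (t := range (ν.rowLen 0))]
  intro x _
  exact Finset.mem_coe.mpr (mem_range.mpr (cl_lt T' x))

/-- dominance -/
lemma dom (T : Fin n ≃ μ.cells) (T' : Fin n ≃ ν.cells) (g : Perm (Fin n))
    (h : Function.Injective fun x => (rw_ T (g x), cl_ T' x)) (k : ℕ) :
    rows μ k ≤ rows ν k := by
  rw [split_rows T T' g k, rows_eq ν k]
  exact Finset.sum_le_sum fun j _ => fiber_le T' _ h k j

/-- in the case of one diagram the pairs are cells -/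
lemma below (T : Fin n ≃ μ.cells) (g : Perm (Fin n))
    (h : Function.Injective fun x => (rw_ T (g x), cl_ T x)) (x₀ : Fin n) :
    rw_ T (g x₀) < μ.colLen (cl_ T x₀) := by
  by_contra hcon
  push Not at hcon
  have h1 := split_rows T T g (μ.colLen (cl_ T x₀))
  rw [rows_eq μ] at h1
  refine absurd h1 (ne_of_gt ?_)
  refine Finset.sum_lt_sum (fun j _ => fiber_le T _ h _ j)
    ⟨cl_ T x₀, mem_range.mpr (cl_lt T x₀), ?_⟩
  rw [min_self, ← count_col T (cl_ T x₀)]
  refine Finset.card_lt_card ?_
  rw [Finset.ssubset_iff_of_subset]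
  · refine ⟨x₀, mem_filter.mpr ⟨mem_univ _, rfl⟩, ?_⟩
    intro hx
    rw [mem_filter, mem_filter, count_col] at hx
    omega
  · intro x hx
    rw [mem_filter] at hx
    exact mem_filter.mpr ⟨mem_univ _, hx.2⟩

/-- the von Neumann lemma -/
lemma factor (T : Fin n ≃ μ.cells) (g : Perm (Fin n))
    (h : Function.Injective fun x => (rw_ T (g x), cl_ T x)) :
    ∃ a ∈ Young (rw_ T), ∃ b ∈ Young (cl_ T), g = a * b := by
  let Φ : Fin n → Fin n := fun x =>
    T.symm ⟨(rw_ T (g x), cl_ T x), YoungDiagram.mem_iff_lt_colLen.mpr (below T g h x)⟩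
  have hinj : Function.Injective Φ := by
    intro x y hxy
    have h1 := T.symm.injective hxy
    exact h (Subtype.mk.inj h1)
  let b : Perm (Fin n) := Equiv.ofBijective Φ (Finite.injective_iff_bijective.mp hinj)
  have hT : ∀ x, (T (b x)).1 = (rw_ T (g x), cl_ T x) := by
    intro x
    change (T (T.symm _)).1 = _
    rw [Equiv.apply_symm_apply]
  have hb1 : ∀ x, rw_ T (b x) = rw_ T (g x) := by
    intro x
    have := congrArg Prod.fst (hT x)
    exact this
  have hb2 : ∀ x, cl_ T (b x) = cl_ T x := by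
    intro x
    have := congrArg Prod.snd (hT x)
    exact this
  refine ⟨g * b⁻¹, ?_, b, hb2, by group⟩
  intro x
  rw [Perm.mul_apply, ← hb1, show b (b⁻¹ x) = x from b.apply_symm_apply x]

lemma inj_self (T : Fin n ≃ μ.cells) :
    Function.Injective fun x => (rw_ T ((1 : Perm (Fin n)) x), cl_ T x) := by
  intro x y hxy
  apply T.injective
  apply Subtype.ext
  have h1 := Prod.mk.inj hxy
  exact Prod.ext h1.1 h1.2

end

/-- the sum of the signs of the permutations which preserve a function -/
lemma sgn_sum {n : ℕ} {β : Type} (p : Fin n → β) [DecidableEq β] :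
    (∑ k : Perm (Fin n), if ∀ x, p (k x) = p x then ((Perm.sign k : ℤ) : ℂ) else 0)
      = if Function.Injective p then 1 else 0 := by
  classical
  by_cases h : Function.Injective p
  · rw [if_pos h, Finset.sum_eq_single 1]
    · simp
    · intro k _ hk
      rw [if_neg]
      intro h2
      exact hk (Equiv.ext fun x => h (h2 x))
    · intro h2
      exact absurd (mem_univ _) h2
  · rw [if_neg h]
    rw [Function.Injective] at h
    push Not at h
    obtain ⟨x, y, hxy, hne⟩ := h
    have hp : ∀ z, p (swap x y z) = p z := by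
      intro z
      rw [swap_apply_def]
      split_ifs with h1 h2
      · rw [h1, hxy]
      · rw [h2, hxy]
      · rfl
    set S : ℂ := ∑ k : Perm (Fin n), if ∀ x, p (k x) = p x then ((Perm.sign k : ℤ) : ℂ) else 0
      with hS
    have h3 : S = -S := by
      have h6 := Equiv.sum_comp (Equiv.mulLeft (swap x y)) (fun k : Perm (Fin n) =>
        if ∀ x, p (k x) = p x then ((Perm.sign k : ℤ) : ℂ) else 0)
      rw [← hS] at h6
      refine h6.symm.trans ?_
      rw [hS, ← Finset.sum_neg_distrib]
      refine Finset.sum_congr rfl fun k _ => ?_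
      have h4 : (∀ z, p ((Equiv.mulLeft (swap x y) k) z) = p z) ↔ ∀ z, p (k z) = p z := by
        refine forall_congr' fun z => ?_
        rw [Equiv.coe_mulLeft, Perm.mul_apply, hp]
      rw [if_congr h4 rfl rfl]
      split_ifs
      · rw [Equiv.coe_mulLeft, map_mul, Perm.sign_swap hne]
        push_cast
        ring
      · simp
    have h5 : (2 : ℂ) * S = 0 := by linear_combination h3
    exact (mul_eq_zero.mp h5).resolve_left two_ne_zero

end Pool.Agent.X21.Yg
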