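import Mathlib
import Pool.Agent.X21.Yg.Y1
import Pool.Agent.X21.Yg.Y2

/-!
# Every irreducible character of a symmetric group is the only common constituent of two characters
induced from Young subgroups
-/

set_option autoImplicit false
set_option linter.unusedSectionVars false

namespace Pool.Agent.X21.Yg

open Pool.Agent.H541R3.ART Finset Equiv

variable {n : ℕ} {μ ν : YoungDiagram}

/-- the sign, as a linear character -/
noncomputable def sgnC (K : Subgroup (Perm (Fin n))) : K →* ℂˣ :=
  ((Units.map (Int.castRingHom ℂ).toMonoidHom).comp Perm.sign).comp K.subtype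

lemma sgnC_apply (K : Subgroup (Perm (Fin n))) (k : K) :
    (((Perm.sign (k : Perm (Fin n)) : ℤ) : ℂ)) = sgnC K k := rfl

/-- the scalar product of a permutation character and a twisted one -/
lemma inner_young (T : Fin n ≃ μ.cells) (T' : Fin n ≃ ν.cells) {a b : (Perm (Fin n) → ℂ) → ℕ}
    (ha : Mult (Young (rw_ T)) 1 a) (hb : Mult (Young (cl_ T')) (sgnC _) b) :
    (∑ χ ∈ irrF (Perm (Fin n)), a χ * b χ) * Nat.card (Young (rw_ T)) *
      Nat.card (Young (cl_ T'))
      = (univ.filter fun g : Perm (Fin n) =>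
          Function.Injective fun x => (rw_ T (g⁻¹ x), cl_ T' x)).card := by
  classical
  have h := inner_formula (Young (rw_ T)) (Young (cl_ T')) (sgnC _)
    (fun k => ((Perm.sign k : ℤ) : ℂ)) (fun k => sgnC_apply _ k) ha hb
  have h2 : ∀ g : Perm (Fin n), (∑ k : Perm (Fin n),
      if k ∈ Young (cl_ T') ∧ g⁻¹ * k * g ∈ Young (rw_ T) then ((Perm.sign k : ℤ) : ℂ) else 0)
      = if Function.Injective fun x => (rw_ T (g⁻¹ x), cl_ T' x) then 1 else 0 := by
    intro g
    refine Eq.trans ?_ ((sgn_sum (fun x => (rw_ T (g⁻¹ x), cl_ T' x))).trans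
      (if_congr Iff.rfl rfl rfl))
    refine Finset.sum_congr rfl fun k _ => if_congr ?_ rfl rfl
    simp only [mem_Young, Prod.mk.injEq]
    constructor
    · rintro ⟨h1, h2⟩ x
      refine ⟨?_, h1 x⟩
      have := h2 (g⁻¹ x)
      rw [Perm.mul_apply, Perm.mul_apply, show g (g⁻¹ x) = x from g.apply_symm_apply x] at this
      exact this
    · intro h1
      refine ⟨fun x => (h1 x).2, fun x => ?_⟩
      have := (h1 (g x)).1
      rw [show g⁻¹ (g x) = x from g.symm_apply_apply x] at this
      rw [Perm.mul_apply, Perm.mul_apply]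
      exact this
  rw [Finset.sum_congr rfl fun g _ => h2 g, Finset.sum_boole] at h
  exact_mod_cast h

lemma card_self (T : Fin n ≃ μ.cells) :
    0 < (univ.filter fun g : Perm (Fin n) =>
          Function.Injective fun x => (rw_ T (g⁻¹ x), cl_ T x)).card ∧
    (univ.filter fun g : Perm (Fin n) =>
          Function.Injective fun x => (rw_ T (g⁻¹ x), cl_ T x)).card
      ≤ Nat.card (Young (rw_ T)) * Nat.card (Young (cl_ T)) := by
  classical
  constructor
  · rw [Finset.card_pos]
    refine ⟨1, Finset.mem_filter.mpr ⟨mem_univ _, ?_⟩⟩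
    rw [inv_one]
    exact inj_self T
  · have : Fintype (Young (rw_ T)) := Fintype.ofFinite _
    have : Fintype (Young (cl_ T)) := Fintype.ofFinite _
    rw [← Nat.card_prod, Nat.card_eq_fintype_card, ← Finset.card_univ]
    refine (Finset.card_le_card (t := (univ : Finset (Young (rw_ T) × Young (cl_ T))).image
      fun x => ((x.1 : Perm (Fin n)) * x.2)⁻¹) ?_).trans Finset.card_image_le
    intro g hg
    obtain ⟨a, ha, b, hb, h⟩ := factor T g⁻¹ (Finset.mem_filter.mp hg).2
    refine Finset.mem_image.mpr ⟨(⟨a, ha⟩, ⟨b, hb⟩), mem_univ _, ?_⟩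
    rw [← h, inv_inv]

/-- the relation between a bijection with a diagram and an irreducible character -/
def Belongs (T : Fin n ≃ μ.cells) (χ : Perm (Fin n) → ℂ) : Prop :=
  χ ∈ Irr (Perm (Fin n)) ∧ ∃ a b : (Perm (Fin n) → ℂ) → ℕ, Mult (Young (rw_ T)) 1 a ∧
    Mult (Young (cl_ T)) (sgnC _) b ∧ a χ ≠ 0 ∧ b χ ≠ 0 ∧
    ∀ χ' ∈ Irr (Perm (Fin n)), χ' ≠ χ → a χ' = 0 ∨ b χ' = 0

lemma exists_belongs (T : Fin n ≃ μ.cells) : ∃ χ, Belongs T χ := by
  classical
  obtain ⟨a, ha⟩ := exists_Mult (Young (rw_ T)) (1 : Young (rw_ T) →* ℂˣ)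
  obtain ⟨b, hb⟩ := exists_Mult (Young (cl_ T)) (sgnC _)
  have h := inner_young T T ha hb
  obtain ⟨h1, h2⟩ := card_self T
  have hH : 0 < Nat.card (Young (rw_ T)) := Nat.card_pos
  have hK : 0 < Nat.card (Young (cl_ T)) := Nat.card_pos
  have hS : ∑ χ ∈ irrF (Perm (Fin n)), a χ * b χ = 1 := by
    rw [← h] at h1 h2
    have hpos : 0 < ∑ χ ∈ irrF (Perm (Fin n)), a χ * b χ := by
      by_contra h3
      rw [Nat.eq_zero_of_not_pos h3] at h1
      simp at h1
    have hle : ∑ χ ∈ irrF (Perm (Fin n)), a χ * b χ ≤ 1 := by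
      by_contra h3
      push Not at h3
      have h4 : 2 * (Nat.card (Young (rw_ T)) * Nat.card (Young (cl_ T)))
          ≤ (∑ χ ∈ irrF (Perm (Fin n)), a χ * b χ) *
            (Nat.card (Young (rw_ T)) * Nat.card (Young (cl_ T))) :=
        Nat.mul_le_mul_right _ h3
      have h5 : 0 < Nat.card (Young (rw_ T)) * Nat.card (Young (cl_ T)) := Nat.mul_pos hH hK
      rw [mul_assoc] at h2
      omega
    omega
  have hne : ∑ χ ∈ irrF (Perm (Fin n)), a χ * b χ ≠ 0 := by omega
  obtain ⟨χ, hχ, hab⟩ := Finset.exists_ne_zero_of_sum_ne_zero hne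
  refine ⟨χ, mem_irrF.mp hχ, a, b, ha, hb, fun h3 => hab (by rw [h3, zero_mul]),
    fun h3 => hab (by rw [h3, mul_zero]), ?_⟩
  intro χ' hχ' hne'
  by_contra hcon
  push Not at hcon
  have h3 : a χ' * b χ' ≠ 0 := mul_ne_zero hcon.1 hcon.2
  have h4 := Finset.add_sum_erase (irrF (Perm (Fin n))) (fun χ => a χ * b χ) hχ
  have h5 : a χ' * b χ' ≤ ∑ x ∈ (irrF (Perm (Fin n))).erase χ, a x * b x :=
    Finset.single_le_sum (f := fun x => a x * b x) (fun _ _ => Nat.zero_le _)
      (Finset.mem_erase.mpr ⟨hne', mem_irrF.mpr hχ'⟩)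
  omega

lemma dom_of_belongs {T : Fin n ≃ μ.cells} {T' : Fin n ≃ ν.cells} {χ : Perm (Fin n) → ℂ}
    (h : Belongs T χ) (h' : Belongs T' χ) (k : ℕ) : rows μ k ≤ rows ν k := by
  classical
  obtain ⟨hχ, a, -, ha, -, ha0, -, -⟩ := h
  obtain ⟨-, -, b, -, hb, -, hb0, -⟩ := h'
  have h1 := inner_young T T' ha hb
  have hH : 0 < Nat.card (Young (rw_ T)) := Nat.card_pos
  have hK : 0 < Nat.card (Young (cl_ T')) := Nat.card_pos
  have hpos : 0 < ∑ χ ∈ irrF (Perm (Fin n)), a χ * b χ := by
    have h2 : a χ * b χ ≤ ∑ x ∈ irrF (Perm (Fin n)), a x * b x :=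
      Finset.single_le_sum (f := fun x => a x * b x) (fun _ _ => Nat.zero_le _) (mem_irrF.mpr hχ)
    have h3 : 0 < a χ * b χ := Nat.mul_pos (Nat.pos_of_ne_zero ha0) (Nat.pos_of_ne_zero hb0)
    omega
  have h4 : 0 < (univ.filter fun g : Perm (Fin n) =>
      Function.Injective fun x => (rw_ T (g⁻¹ x), cl_ T' x)).card := by
    rw [← h1]
    positivity
  obtain ⟨g, hg⟩ := Finset.card_pos.mp h4
  exact dom T T' g⁻¹ (Finset.mem_filter.mp hg).2 k

lemma eq_of_belongs {T : Fin n ≃ μ.cells} {T' : Fin n ≃ ν.cells} {χ : Perm (Fin n) → ℂ}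
    (h : Belongs T χ) (h' : Belongs T' χ) : μ = ν :=
  eq_of_rows fun k => le_antisymm (dom_of_belongs h h' k) (dom_of_belongs h' h k)

/-- the diagram of a partition -/
noncomputable def diag (p : (Fintype.card (Fin n)).Partition) : YoungDiagram :=
  YoungDiagram.ofRowLens (p.parts.sort (fun a b => a ≥ b))
    (List.sortedGE_iff_pairwise.mpr (Multiset.pairwise_sort _ _))

lemma card_cells_aux : ∀ w : List ℕ, (YoungDiagram.cellsOfRowLens w).card = w.sum
  | [] => rfl
  | w :: ws => by
    rw [YoungDiagram.cellsOfRowLens, Finset.card_union_of_disjoint, Finset.card_map,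
      card_cells_aux ws, Finset.card_product, Finset.card_singleton, Finset.card_range, one_mul,
      List.sum_cons]
    rw [Finset.disjoint_left]
    rintro ⟨i, j⟩ h1 h2
    rw [Finset.mem_product, Finset.mem_singleton] at h1
    rw [Finset.mem_map] at h2
    obtain ⟨⟨i', j'⟩, -, h3⟩ := h2
    have h4 : Nat.succ i' = i := congrArg Prod.fst h3
    rw [show i = 0 from h1.1] at h4
    exact absurd h4 (Nat.succ_ne_zero _)

lemma card_diag (p : (Fintype.card (Fin n)).Partition) : (diag p).cells.card = n := by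
  have h1 : (diag p).cells.card = (p.parts.sort (fun a b => a ≥ b)).sum := card_cells_aux _
  rw [h1, ← Multiset.sum_coe, Multiset.sort_eq, p.parts_sum, Fintype.card_fin]

lemma diag_inj : Function.Injective (diag (n := n)) := by
  intro p q h
  have h1 : ∀ p : (Fintype.card (Fin n)).Partition,
      (diag p).rowLens = p.parts.sort (fun a b => a ≥ b) := by
    intro p
    refine YoungDiagram.rowLens_ofRowLens_eq_self ?_
    intro x hx
    rw [Multiset.mem_sort] at hx
    exact p.parts_pos hx
  have h2 := congrArg YoungDiagram.rowLens h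
  rw [h1, h1] at h2
  have h3 := congrArg (fun l : List ℕ => (l : Multiset ℕ)) h2
  simp only [Multiset.sort_eq] at h3
  exact Nat.Partition.ext h3

/-- the number of irreducible characters is at most the number of conjugacy classes -/
lemma card_irr_le {G : Type} [Group G] [Finite G] : Nat.card (Irr G) ≤ Nat.card (ConjClasses G) := by
  classical
  have : Fintype G := Fintype.ofFinite G
  have : Fintype (ConjClasses G) := Fintype.ofFinite _
  have hG : (Nat.card G : ℂ) ≠ 0 := by exact_mod_cast Nat.card_pos.ne'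
  let F : Irr G → (ConjClasses G → ℂ) := fun χ => fun c => (χ : G → ℂ) (Quotient.out c)
  have hF : ∀ (χ : Irr G) (g : G), F χ (ConjClasses.mk g) = (χ : G → ℂ) g := by
    intro χ g
    have h1 : IsConj (Quotient.out (ConjClasses.mk g)) g := by
      rw [← ConjClasses.mk_eq_mk_iff_isConj]
      exact Quotient.out_eq _
    obtain ⟨c, hc⟩ := isConj_iff.mp h1
    have h5 := Irr.conj χ.2 (Quotient.out (ConjClasses.mk g)) c
    rw [hc] at h5
    exact h5.symm
  have hli : LinearIndependent ℂ F := by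
    rw [linearIndependent_iff']
    intro s c hc i hi
    have h0 : ∀ g : G, ∑ j ∈ s, c j * (j : G → ℂ) g = 0 := by
      intro g
      have := congrFun hc (ConjClasses.mk g)
      simp only [Finset.sum_apply, Pi.smul_apply, smul_eq_mul, hF, Pi.zero_apply] at this
      exact this
    have h1 : ∑ g : G, (∑ j ∈ s, c j * (j : G → ℂ) g) * (i : G → ℂ) g⁻¹ = 0 := by
      refine Finset.sum_eq_zero fun g _ => ?_
      rw [h0, zero_mul]
    have h2 : ∑ g : G, (∑ j ∈ s, c j * (j : G → ℂ) g) * (i : G → ℂ) g⁻¹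
        = ∑ j ∈ s, c j * ∑ g : G, (j : G → ℂ) g * (i : G → ℂ) g⁻¹ := by
      simp_rw [Finset.sum_mul, Finset.mul_sum]
      rw [Finset.sum_comm]
      refine Finset.sum_congr rfl fun j _ => Finset.sum_congr rfl fun g _ => by ring
    rw [h2, Finset.sum_eq_single i] at h1
    · rw [pair_self i.2] at h1
      exact (mul_eq_zero.mp h1).resolve_right hG
    · intro j _ hj
      rw [pair_ne j.2 i.2 (fun h => hj (Subtype.ext h)), mul_zero]
    · intro h; exact absurd hi h
  have hfin : Finite (Irr G) := hli.finite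
  have : Fintype (Irr G) := Fintype.ofFinite _
  have h3 := hli.fintype_card_le_finrank
  rw [Module.finrank_fintype_fun_eq_card] at h3
  rwa [Nat.card_eq_fintype_card, Nat.card_eq_fintype_card]

/-- **every irreducible character belongs to a partition** -/
theorem irr_belongs {χ : Perm (Fin n) → ℂ} (hχ : χ ∈ Irr (Perm (Fin n))) :
    ∃ (μ : YoungDiagram) (T : Fin n ≃ μ.cells), Belongs T χ := by
  classical
  let P := (Fintype.card (Fin n)).Partition
  have hT : ∀ p : P, Nonempty (Fin n ≃ (diag p).cells) := by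
    intro p
    refine ⟨Fintype.equivOfCardEq ?_⟩
    rw [Fintype.card_fin, Fintype.card_coe, card_diag]
  have hT2 : ∀ p : P, ∃ χ, Belongs (Classical.choice (hT p)) χ := fun p => exists_belongs _
  choose f hf using hT2
  let F : P → Irr (Perm (Fin n)) := fun p => ⟨f p, (hf p).1⟩
  have hinj : Function.Injective F := by
    intro p q h
    have h1 : f p = f q := congrArg Subtype.val h
    have h2 := hf p
    rw [h1] at h2
    exact diag_inj (eq_of_belongs h2 (hf q))
  have hfin : Finite (Irr (Perm (Fin n))) := (irr_finite (G := Perm (Fin n))).to_subtype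
  have h1 : Nat.card (Irr (Perm (Fin n))) ≤ Nat.card P := by
    refine card_irr_le.trans ?_
    let c : ConjClasses (Perm (Fin n)) → P := fun x => (Quotient.out x).partition
    refine Nat.card_le_card_of_injective c ?_
    intro x y hxy
    have h2 : IsConj (Quotient.out x) (Quotient.out y) := Perm.partition_eq_of_isConj.mpr hxy
    rw [← ConjClasses.mk_eq_mk_iff_isConj] at h2
    have h3 : ConjClasses.mk (Quotient.out x) = x := Quotient.out_eq x
    have h4 : ConjClasses.mk (Quotient.out y) = y := Quotient.out_eq y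
    rw [h3, h4] at h2
    exact h2
  have hsurj : Function.Surjective F := by
    have hb := (Nat.bijective_iff_injective_and_card F).mpr
      ⟨hinj, le_antisymm (Nat.card_le_card_of_injective F hinj) h1⟩
    exact hb.2
  obtain ⟨p, hp⟩ := hsurj ⟨χ, hχ⟩
  refine ⟨diag p, Classical.choice (hT p), ?_⟩
  have h2 : f p = χ := congrArg Subtype.val hp
  rw [← h2]
  exact hf p

theorem irr_sep {χ : Perm (Fin n) → ℂ} (hχ : χ ∈ Irr (Perm (Fin n))) : Sep χ := by
  obtain ⟨μ, T, -, a, b, h1, h2, h3, h4, h5⟩ := irr_belongs hχ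
  exact ⟨_, _, _, _, a, b, h1, h2, h3, h4, h5⟩

end Pool.Agent.X21.Yg
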