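import Mathlib
import Pool.Agent.X21.Yg.Y3

/-!
# Poles of the Artin L-functions of `S_n`-extensions are sandwiched between zeros
-/

set_option autoImplicit false
set_option linter.unusedSectionVars false

namespace Pool.Agent.X21.Yg

open Pool.Agent.H302R2 Pool.Agent.H541R3.ART Pool.Agent.X21.Sy Pool.Agent.X21.Qd Pool.Agent.X21.Li
  Finset Equiv

variable {n : ℕ} {μ ν : YoungDiagram}

lemma mult_conj (θ : Perm (Fin n) →* ℂˣ) (f : Fin n → ℕ) (g : Perm (Fin n))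
    {m : (Perm (Fin n) → ℂ) → ℕ} (h : Mult (Young f) (θ.comp (Young f).subtype) m) :
    Mult (Young (f ∘ g)) (θ.comp (Young (f ∘ g)).subtype) m := by
  classical
  have h1 : ∀ σ : Perm (Fin n), σ ∈ Young (f ∘ g) ↔ g * σ * g⁻¹ ∈ Young f := by
    intro σ
    simp only [mem_Young, Function.comp_apply, Perm.mul_apply]
    constructor
    · intro h2 x
      have := h2 (g⁻¹ x)
      rwa [show g (g⁻¹ x) = x from g.apply_symm_apply x] at this
    · intro h2 x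
      have := h2 (g x)
      rwa [show g⁻¹ (g x) = x from g.symm_apply_apply x] at this
  let e : Young (f ∘ g) ≃ Young f :=
    { toFun := fun σ => ⟨g * σ * g⁻¹, (h1 σ).mp σ.2⟩
      invFun := fun σ => ⟨g⁻¹ * σ * g, (h1 _).mpr (by
        have : g * (g⁻¹ * (σ : Perm (Fin n)) * g) * g⁻¹ = σ := by group
        rw [this]
        exact σ.2)⟩
      left_inv := fun σ => Subtype.ext (by simp only; group)
      right_inv := fun σ => Subtype.ext (by simp only; group) }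
  intro χ hχ
  have : Fintype (Young (f ∘ g)) := Fintype.ofFinite _
  have : Fintype (Young f) := Fintype.ofFinite _
  rw [Nat.card_congr e, ← h χ hχ, finsum_eq_sum_of_fintype, finsum_eq_sum_of_fintype]
  refine Fintype.sum_equiv e _ _ fun σ => ?_
  have h2 : ((e σ : Young f) : Perm (Fin n)) = g * σ * g⁻¹ := rfl
  simp only [MonoidHom.comp_apply, Subgroup.coe_subtype]
  rw [h2, Irr.conj hχ]
  congr 3
  rw [map_mul, map_mul, map_inv, mul_comm, ← mul_assoc, inv_mul_cancel, one_mul]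

lemma Belongs.any {T : Fin n ≃ μ.cells} {χ : Perm (Fin n) → ℂ} (h : Belongs T χ)
    (T' : Fin n ≃ μ.cells) : Belongs T' χ := by
  obtain ⟨hχ, a, b, ha, hb, ha0, hb0, hab⟩ := h
  let g : Perm (Fin n) := T'.trans T.symm
  have hr : rw_ T' = rw_ T ∘ g := by
    funext x
    simp [rw_, g]
  have hc : cl_ T' = cl_ T ∘ g := by
    funext x
    simp [cl_, g]
  refine ⟨hχ, a, b, ?_, ?_, ha0, hb0, hab⟩
  · rw [hr]
    exact mult_conj 1 (rw_ T) g ha
  · rw [hc]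
    exact mult_conj ((Units.map (Int.castRingHom ℂ).toMonoidHom).comp Perm.sign) (cl_ T) g hb

lemma Mult.eq {G : Type} [Group G] [Finite G] {H : Subgroup G} {ψ : H →* ℂˣ}
    {m m' : (G → ℂ) → ℕ} (h : Mult H ψ m) (h' : Mult H ψ m') {χ : G → ℂ} (hχ : χ ∈ Irr G) :
    m χ = m' χ := by
  have h1 := h χ hχ
  rw [h' χ hχ] at h1
  have hH : (Nat.card H : ℂ) ≠ 0 := by exact_mod_cast Nat.card_pos.ne'
  exact_mod_cast (mul_right_cancel₀ hH h1).symm

lemma Belongs.unique {T : Fin n ≃ μ.cells} {χ χ' : Perm (Fin n) → ℂ} (h : Belongs T χ)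
    (h' : Belongs T χ') : χ' = χ := by
  obtain ⟨hχ, a, b, ha, hb, ha0, hb0, hab⟩ := h
  obtain ⟨hχ', a', b', ha', hb', ha0', hb0', hab'⟩ := h'
  by_contra hne
  rcases hab χ' hχ' hne with h1 | h1
  · exact ha0' ((ha'.eq ha hχ').trans h1)
  · exact hb0' ((hb'.eq hb hχ').trans h1)

/-- `χ` is the irreducible character of the symmetric group with label `μ` -/
def HasLabel (μ : YoungDiagram) (χ : Perm (Fin n) → ℂ) : Prop :=
  ∃ T : Fin n ≃ μ.cells, Belongs T χ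

/-- the strict dominance order -/
def SDom (μ ν : YoungDiagram) : Prop := (∀ k, rows μ k ≤ rows ν k) ∧ μ ≠ ν

lemma dom_of_mult (T : Fin n ≃ μ.cells) (T' : Fin n ≃ ν.cells)
    {a b : (Perm (Fin n) → ℂ) → ℕ} (ha : Mult (Young (rw_ T)) 1 a)
    (hb : Mult (Young (cl_ T')) (sgnC _) b) {χ : Perm (Fin n) → ℂ} (hχ : χ ∈ Irr (Perm (Fin n)))
    (ha0 : a χ ≠ 0) (hb0 : b χ ≠ 0) (k : ℕ) : rows μ k ≤ rows ν k := by
  classical
  have h1 := inner_young T T' ha hb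
  have hH : 0 < Nat.card (Young (rw_ T)) := Nat.card_pos
  have hK : 0 < Nat.card (Young (cl_ T')) := Nat.card_pos
  have hpos : 0 < ∑ χ ∈ irrF (Perm (Fin n)), a χ * b χ := by
    have h2 : a χ * b χ ≤ ∑ x ∈ irrF (Perm (Fin n)), a x * b x :=
      Finset.single_le_sum (f := fun x => a x * b x) (fun _ _ => Nat.zero_le _) (mem_irrF.mpr hχ)
    have h3 : 0 < a χ * b χ := Nat.mul_pos (Nat.pos_of_ne_zero ha0) (Nat.pos_of_ne_zero hb0)
    omega
  have h4 : 0 < (univ.filter fun g : Perm (Fin n) =>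
      Function.Injective fun x => (rw_ T (g⁻¹ x), cl_ T' x)).card := by
    rw [← h1]
    positivity
  obtain ⟨g, hg⟩ := Finset.card_pos.mp h4
  exact dom T T' g⁻¹ (Finset.mem_filter.mp hg).2 k

/-- **every irreducible character has exactly one label** -/
theorem label_unique {χ : Perm (Fin n) → ℂ} (hχ : χ ∈ Irr (Perm (Fin n))) :
    ∃! μ : YoungDiagram, HasLabel μ χ := by
  obtain ⟨μ, T, hT⟩ := irr_belongs hχ
  refine ⟨μ, ⟨T, hT⟩, ?_⟩
  rintro ν ⟨T', hT'⟩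
  exact eq_of_belongs hT' hT

/-- **and every diagram with `n` cells is the label of exactly one** -/
theorem label_exists (μ : YoungDiagram) (hμ : μ.cells.card = n) :
    ∃! χ : Perm (Fin n) → ℂ, HasLabel μ χ := by
  have T : Fin n ≃ μ.cells := Fintype.equivOfCardEq (by
    rw [Fintype.card_fin, Fintype.card_coe, hμ])
  obtain ⟨χ, hχ⟩ := exists_belongs T
  refine ⟨χ, ⟨T, hχ⟩, ?_⟩
  rintro χ' ⟨T', hT'⟩
  exact hχ.unique (hT'.any T)

/-- **poles are sandwiched between zeros** -/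
theorem sandwich {s₀ : ℂ} (A : ArtinData (Perm (Fin n)) s₀) {μ : YoungDiagram}
    {χ : Perm (Fin n) → ℂ} (hμ : HasLabel μ χ) (hneg : A.ord χ < 0) :
    ∃ (ν ν' : YoungDiagram) (χ₁ χ₂ : Perm (Fin n) → ℂ), HasLabel ν χ₁ ∧ HasLabel ν' χ₂ ∧
      SDom μ ν ∧ SDom ν' μ ∧ 0 < A.ord χ₁ ∧ 0 < A.ord χ₂ := by
  obtain ⟨T, hT⟩ := hμ
  have hT0 := hT
  obtain ⟨hχ, a, b, ha, hb, ha0, hb0, hab⟩ := hT0
  obtain ⟨χ₁, h1, h2, h3⟩ := exists_zero A ha hχ ha0 hneg
  obtain ⟨χ₂, h4, h5, h6⟩ := exists_zero A hb hχ hb0 hneg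
  obtain ⟨ν, T₁, hT₁⟩ := irr_belongs h1
  obtain ⟨ν', T₂, hT₂⟩ := irr_belongs h4
  refine ⟨ν, ν', χ₁, χ₂, ⟨T₁, hT₁⟩, ⟨T₂, hT₂⟩, ⟨?_, ?_⟩, ⟨?_, ?_⟩, h3, h6⟩
  · obtain ⟨-, -, b₁, -, hb₁, -, hb₁0, -⟩ := hT₁
    exact dom_of_mult T T₁ ha hb₁ h1 h2 hb₁0
  · rintro rfl
    have := (Belongs.unique hT (hT₁.any T))
    rw [this] at h3
    omega
  · obtain ⟨-, a₂, -, ha₂, -, ha₂0, -, -⟩ := hT₂
    exact dom_of_mult T₂ T ha₂ hb h4 ha₂0 h5
  · rintro rfl
    have := (Belongs.unique hT (hT₂.any T))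
    rw [this] at h6
    omega

end Pool.Agent.X21.Yg
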