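import Mathlib
import Pool.Agent.X21.Yg.Y4

/-!
# Consequences
-/

set_option autoImplicit false
set_option linter.unusedSectionVars false

namespace Pool.Agent.X21.Yg

open Pool.Agent.H302R2 Pool.Agent.H541R3.ART Pool.Agent.X21.Sy Pool.Agent.X21.Qd Pool.Agent.X21.Li
  Pool.Agent.X21.Ce Finset

variable {G : Type} [Group G] [Finite G] {s₀ : ℂ}

/-- the order of the L-function of a character of a subgroup -/
lemma rel_order (A : ArtinData G s₀) {F : ℂ → ℂ} {m : (G → ℂ) → ℕ}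
    (hF : F =ᶠ[nhdsWithin s₀ {s₀}ᶜ] fun s => ∏ᶠ χ ∈ Irr G, A.L χ s ^ m χ) :
    meromorphicOrderAt F s₀ = ((∑ χ ∈ irrF G, (m χ : ℤ) * A.ord χ : ℤ) : WithTop ℤ) := by
  classical
  rw [meromorphicOrderAt_congr hF]
  have h1 : (fun s => ∏ᶠ χ ∈ Irr G, A.L χ s ^ m χ)
      = fun s => ∏ χ ∈ irrF G, (A.L χ ^ m χ) s := by
    funext s
    rw [finprod_mem_eq_finite_toFinset_prod _ (irr_finite (G := G))]
    rfl
  rw [h1, meromorphicOrderAt_fun_prod (fun χ hχ => ((A.mero χ (mem_irrF.mp hχ)).1).pow _)]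
  have h2 : ∀ χ ∈ irrF G, meromorphicOrderAt (A.L χ ^ m χ) s₀
      = (((m χ : ℤ) * A.ord χ : ℤ) : WithTop ℤ) := by
    intro χ hχ
    rw [meromorphicOrderAt_pow ((A.mero χ (mem_irrF.mp hχ)).1), ← A.coe_ord (mem_irrF.mp hχ)]
    push_cast
    rfl
  rw [Finset.sum_congr rfl h2, ← WithTop.coe_sum]

/-- if at most one of the `L χ` vanishes, none has a pole, provided that all irreducible characters
are `Sep` -/
theorem no_pole (A : ArtinData G s₀) (hs : ∀ χ ∈ Irr G, Sep χ)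
    (h1 : ∀ χ₁ ∈ Irr G, ∀ χ₂ ∈ Irr G, 0 < A.ord χ₁ → 0 < A.ord χ₂ → χ₁ = χ₂) :
    ∀ χ ∈ Irr G, 0 ≤ A.ord χ := by
  intro χ hχ
  by_contra hneg
  push Not at hneg
  obtain ⟨χ₁, h2, χ₂, h3, h4, h5, h6⟩ := two_zeros A hχ (hs χ hχ) hneg
  exact h4 (h1 χ₁ h2 χ₂ h3 h5 h6)

theorem rel_nonneg (A : ArtinData G s₀) (h : ∀ χ ∈ Irr G, 0 ≤ A.ord χ) (U : Subgroup G)
    (η : U → ℂ) (P : ℂ → ℂ) (hP : IsRel A U η P) : 0 ≤ meromorphicOrderAt P s₀ := by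
  obtain ⟨m, -, hF⟩ := hP
  rw [rel_order A hF]
  have : 0 ≤ ∑ χ ∈ irrF G, (m χ : ℤ) * A.ord χ :=
    Finset.sum_nonneg fun χ hχ => mul_nonneg (by positivity) (h χ (mem_irrF.mp hχ))
  exact_mod_cast this

/-- the case of a simple value -/
theorem simple_value (A : ArtinData G s₀) (hs : ∀ χ ∈ Irr G, Sep χ) (hocc : occ A ≤ 1) :
    (∀ χ ∈ Irr G, A.ord χ = 0) ∨
    ∃ χ₀ ∈ Irr G, A.ord χ₀ = 1 ∧ (∀ χ ∈ Irr G, χ ≠ χ₀ → A.ord χ = 0) ∧
      ∀ (U : Subgroup G) (η : U → ℂ) (P : ℂ → ℂ), IsRel A U η P →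
        ∃ m : ℕ, ∑ᶠ u : U, χ₀ u * η u⁻¹ = (m : ℂ) * (Nat.card U : ℂ) ∧
          meromorphicOrderAt P s₀ = ((m : ℤ) : WithTop ℤ) := by
  classical
  rw [occ_eq] at hocc
  have h1 : ∀ χ₁ ∈ Irr G, ∀ χ₂ ∈ Irr G, 0 < A.ord χ₁ → 0 < A.ord χ₂ → χ₁ = χ₂ := by
    intro χ₁ h1 χ₂ h2 h3 h4
    by_contra hne
    have h5 := Finset.add_sum_erase (irrF G) (fun χ => (A.ord χ).toNat) (mem_irrF.mpr h1)
    have h6 : (A.ord χ₂).toNat ≤ ∑ x ∈ (irrF G).erase χ₁, (A.ord x).toNat :=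
      Finset.single_le_sum (f := fun x => (A.ord x).toNat) (fun _ _ => Nat.zero_le _)
        (Finset.mem_erase.mpr ⟨fun h => hne h.symm, mem_irrF.mpr h2⟩)
    omega
  have h2 := no_pole A hs h1
  by_cases h3 : ∃ χ₀ ∈ Irr G, 0 < A.ord χ₀
  · right
    obtain ⟨χ₀, h4, h5⟩ := h3
    have h6 : ∀ χ ∈ Irr G, χ ≠ χ₀ → A.ord χ = 0 := by
      intro χ hχ hne
      have h7 := h2 χ hχ
      by_contra h8
      exact hne (h1 χ hχ χ₀ h4 (by omega) h5)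
    have h7 : A.ord χ₀ = 1 := by
      have h8 := Finset.single_le_sum (f := fun x => (A.ord x).toNat) (fun _ _ => Nat.zero_le _)
        (mem_irrF.mpr h4)
      omega
    refine ⟨χ₀, h4, h7, h6, ?_⟩
    rintro U η P ⟨m, hm, hF⟩
    refine ⟨m χ₀, hm χ₀ h4, ?_⟩
    rw [rel_order A hF, Finset.sum_eq_single χ₀]
    · rw [h7, mul_one]
    · intro χ hχ hne
      rw [h6 χ (mem_irrF.mp hχ) hne, mul_zero]
    · intro h
      exact absurd (mem_irrF.mpr h4) h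
  · left
    push Not at h3
    intro χ hχ
    exact le_antisymm (h3 χ hχ) (h2 χ hχ)

/-- irreducible monomial characters are `Sep` -/
theorem sep_of_monomial {χ : G → ℂ} (H : Subgroup G) (ψ : H →* ℂˣ)
    (h : Mult H ψ (fun χ' => by classical exact if χ' = χ then 1 else 0)) : Sep χ := by
  classical
  refine ⟨H, H, ψ, ψ, _, _, h, h, ?_, ?_, ?_⟩
  · simp
  · simp
  · intro χ' _ hne
    left
    simp [hne]

end Pool.Agent.X21.Yg
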